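import Pool.Agent.H28.GN.T4

/-!
Theorem G, row GF1: one `N`, families of disjoint intervals.
-/

set_option autoImplicit false

open Filter Topology Finset

namespace Pool.Agent.H44.GNG

open Pool.Agent.H28.GN

private theorem sumI (Y : ℤ → ℂ) (s : ℕ) : ∀ s' : ℕ, s ≤ s' →
    ∑ n ∈ Ioc (s : ℤ) s', Y n =
      ∑ n ∈ range s', Y ((n : ℤ) + 1) - ∑ n ∈ range s, Y ((n : ℤ) + 1) := by
  intro s' h
  induction s', h using Nat.le_induction with
  | base => simp
  | succ k hk ih =>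
    have e : Ioc (s : ℤ) ((k + 1 : ℕ) : ℤ) = insert ((k : ℤ) + 1) (Ioc (s : ℤ) k) := by
      ext x
      simp only [mem_Ioc, mem_insert]
      push_cast
      omega
    rw [e, sum_insert (by simp), ih, sum_range_succ]
    ring

private theorem nrmI (Y : ℤ → ℂ) (hY : ∀ n, ‖Y n‖ ≤ 1) (s s' : ℕ) (h : s ≤ s') :
    ‖∑ n ∈ range s', Y ((n : ℤ) + 1) - ∑ n ∈ range s, Y ((n : ℤ) + 1)‖ ≤ (s' : ℝ) - s := by
  rw [← sumI Y s s' h]
  refine (norm_sum_le _ _).trans ((sum_le_sum fun n _ => hY n).trans ?_)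
  rw [sum_const, nsmul_eq_mul, mul_one, Int.card_Ioc]
  have : (((s' : ℤ) - s).toNat : ℤ) = (s' : ℤ) - s := Int.toNat_of_nonneg (by omega)
  have h2 : ((((s' : ℤ) - s).toNat : ℤ) : ℝ) = (((s' : ℤ) - s : ℤ) : ℝ) := by rw [this]
  push_cast at h2
  rw [h2]

private theorem stA (Y : ℤ → ℂ) (hY : ∀ n, ‖Y n‖ ≤ 1) (M s s' : ℕ) (hM : 0 < M) (h : s ≤ s') :
    ‖∑ n ∈ Ioc (s : ℤ) s', Y n‖ ≤
      ∑ i ∈ (range (s' / M)).filter (fun i => s ≤ i * M),
        ‖∑ n ∈ Ioc ((i * M : ℕ) : ℤ) (((i * M : ℕ) : ℤ) + M), Y n‖ + 2 * M := by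
  set F : ℕ → ℂ := fun x => ∑ n ∈ range x, Y ((n : ℤ) + 1) with hF
  have hw : ∀ i : ℕ, ∑ n ∈ Ioc ((i * M : ℕ) : ℤ) (((i * M : ℕ) : ℤ) + M), Y n =
      F ((i + 1) * M) - F (i * M) := by
    intro i
    have h1 := sumI Y (i * M) ((i + 1) * M) (by nlinarith)
    rw [hF]
    simp only
    rw [← h1]
    congr 2
    push_cast
    ring
  rw [sumI Y s s' h]
  change ‖F s' - F s‖ ≤ _
  simp only [hw]
  have hM' : (0 : ℝ) < M := by exact_mod_cast hM
  by_cases hc : ∃ i, i * M ≤ s' ∧ s ≤ i * M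
  · set i0 := (s + M - 1) / M with hi0
    set i1 := s' / M with hi1
    have e0 : ∀ i, i0 ≤ i ↔ s ≤ i * M := by
      intro i
      constructor
      · intro hi
        have h1 : (s + M - 1) / M < i + 1 := by omega
        rw [Nat.div_lt_iff_lt_mul hM] at h1
        have h2 : (i + 1) * M = i * M + M := by ring
        omega
      · intro hi
        have h1 : (s + M - 1) / M < i + 1 := by
          rw [Nat.div_lt_iff_lt_mul hM]
          have h2 : (i + 1) * M = i * M + M := by ring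
          omega
        omega
    have e1 : i1 * M ≤ s' := Nat.div_mul_le_self s' M
    have e2 : s' < (i1 + 1) * M := by
      have := Nat.lt_div_mul_add (a := s') hM
      rw [← hi1] at this
      have h2 : (i1 + 1) * M = i1 * M + M := by ring
      omega
    have e3 : s ≤ i0 * M := (e0 i0).1 le_rfl
    have e4 : i0 * M < s + M := by
      have := Nat.div_mul_le_self (s + M - 1) M
      rw [← hi0] at this
      omega
    obtain ⟨i, hi1', hi2'⟩ := hc
    have e5 : i0 ≤ i1 := by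
      have h1 : i0 ≤ i := (e0 i).2 hi2'
      have h2 : i ≤ i1 := (Nat.le_div_iff_mul_le hM).2 hi1'
      omega
    have e6 : (range i1).filter (fun i => s ≤ i * M) = Ico i0 i1 := by
      ext j
      simp only [mem_filter, mem_range, mem_Ico, e0 j]
      tauto
    rw [e6]
    have e7 : F s' - F s = (F s' - F (i1 * M)) + (∑ i ∈ Ico i0 i1,
        (F ((i + 1) * M) - F (i * M))) + (F (i0 * M) - F s) := by
      rw [sum_Ico_sub (fun i => F (i * M)) e5]
      ring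
    rw [e7]
    have n1 := nrmI Y hY (i1 * M) s' e1
    have n2 := nrmI Y hY s (i0 * M) e3
    have n3 : ‖∑ i ∈ Ico i0 i1, (F ((i + 1) * M) - F (i * M))‖ ≤
        ∑ i ∈ Ico i0 i1, ‖F ((i + 1) * M) - F (i * M)‖ := norm_sum_le _ _
    have r1 : (s' : ℝ) - (i1 * M : ℕ) ≤ M := by
      have : (s' : ℝ) ≤ ((i1 + 1) * M : ℕ) := by exact_mod_cast e2.le
      push_cast at this ⊢
      nlinarith
    have r2 : ((i0 * M : ℕ) : ℝ) - s ≤ M := by
      have : ((i0 * M : ℕ) : ℝ) ≤ (s + M : ℕ) := by exact_mod_cast e4.le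
      push_cast at this ⊢
      linarith
    refine (norm_add_le _ _).trans ?_
    refine (add_le_add (norm_add_le _ _) le_rfl).trans ?_
    change ‖F s' - F (i1 * M)‖ ≤ _ at n1
    change ‖F (i0 * M) - F s‖ ≤ _ at n2
    linarith
  · have n1 := nrmI Y hY s s' h
    change ‖F s' - F s‖ ≤ _ at n1
    have hs : (s' : ℝ) - s ≤ M := by
      by_contra hcon
      have h1 : s + M < s' := by
        have : (s : ℝ) + M < s' := by linarith
        exact_mod_cast this
      apply hc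
      refine ⟨(s + M - 1) / M, ?_, ?_⟩
      · have := Nat.div_mul_le_self (s + M - 1) M
        omega
      · have := Nat.lt_div_mul_add (a := s + M - 1) hM
        omega
    have h0 : 0 ≤ ∑ i ∈ (range (s' / M)).filter (fun i => s ≤ i * M),
        ‖F ((i + 1) * M) - F (i * M)‖ := sum_nonneg fun _ _ => norm_nonneg _
    linarith

private theorem stB (Y : ℤ → ℂ) (hY : ∀ n, ‖Y n‖ ≤ 1) (M N K₀ : ℕ) (hM : 0 < M) (hK : 0 < K₀)
    (I : Finset (ℕ × ℕ)) (hI : ∀ S ∈ I, S.1 + K₀ ≤ S.2 ∧ S.2 ≤ N)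
    (hd : (I : Set (ℕ × ℕ)).PairwiseDisjoint (fun S => Ioc S.1 S.2)) :
    ∑ S ∈ I, ‖∑ n ∈ Ioc (S.1 : ℤ) S.2, Y n‖ ≤
      ∑ i ∈ range (N / M), ‖∑ n ∈ Ioc ((i * M : ℕ) : ℤ) (((i * M : ℕ) : ℤ) + M), Y n‖ +
        2 * M * (N / K₀ : ℝ) := by
  have hcard : (I.card : ℝ) * K₀ ≤ N := by
    have h1 : ∑ S ∈ I, (Ioc S.1 S.2).card ≤ N := by
      rw [← card_biUnion hd]
      calc (I.biUnion fun S => Ioc S.1 S.2).card ≤ (Ioc 0 N).card := by
            refine card_le_card ?_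
            intro x hx
            rw [mem_biUnion] at hx
            obtain ⟨S, hS, hx⟩ := hx
            rw [mem_Ioc] at hx ⊢
            have := hI S hS
            omega
        _ = N := by simp
    have h2 : I.card * K₀ ≤ ∑ S ∈ I, (Ioc S.1 S.2).card := by
      rw [← smul_eq_mul, ← sum_const]
      refine sum_le_sum fun S hS => ?_
      rw [Nat.card_Ioc]
      have := hI S hS
      omega
    exact_mod_cast h2.trans h1
  have hK' : (0 : ℝ) < K₀ := by exact_mod_cast hK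
  set w : ℕ → ℝ := fun i => ‖∑ n ∈ Ioc ((i * M : ℕ) : ℤ) (((i * M : ℕ) : ℤ) + M), Y n‖ with hw
  have hw0 : ∀ i, 0 ≤ w i := fun i => norm_nonneg _
  set Fi : ℕ × ℕ → Finset ℕ := fun S => (range (S.2 / M)).filter (fun i => S.1 ≤ i * M) with hFi
  have hdF : (I : Set (ℕ × ℕ)).PairwiseDisjoint Fi := by
    intro S hS S' hS' hne
    have hdd := hd hS hS' hne
    rw [Function.onFun, disjoint_left] at hdd ⊢
    intro i hi hi'
    simp only [hFi, mem_filter, mem_range] at hi hi'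
    have a1 : (i + 1) * M ≤ S.2 := (Nat.le_div_iff_mul_le hM).1 (by omega)
    have a2 : (i + 1) * M ≤ S'.2 := (Nat.le_div_iff_mul_le hM).1 (by omega)
    have a3 : (i + 1) * M = i * M + M := by ring
    refine hdd (a := (i + 1) * M) ?_ ?_
    · rw [mem_Ioc]; omega
    · rw [mem_Ioc]; omega
  calc ∑ S ∈ I, ‖∑ n ∈ Ioc (S.1 : ℤ) S.2, Y n‖ ≤ ∑ S ∈ I, (∑ i ∈ Fi S, w i + 2 * M) :=
        sum_le_sum fun S hS => stA Y hY M S.1 S.2 hM (by have := hI S hS; omega)
    _ = ∑ S ∈ I, ∑ i ∈ Fi S, w i + I.card * (2 * M) := by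
        rw [sum_add_distrib, sum_const, nsmul_eq_mul]
    _ = ∑ i ∈ I.biUnion Fi, w i + I.card * (2 * M) := by rw [sum_biUnion hdF]
    _ ≤ ∑ i ∈ range (N / M), w i + 2 * M * (N / K₀ : ℝ) := by
        refine add_le_add (sum_le_sum_of_subset_of_nonneg ?_ fun i _ _ => hw0 i) ?_
        · intro i hi
          rw [mem_biUnion] at hi
          obtain ⟨S, hS, hi⟩ := hi
          simp only [hFi, mem_filter, mem_range] at hi ⊢
          have := hI S hS
          have h3 : S.2 / M ≤ N / M := Nat.div_le_div_right this.2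
          omega
        · have h4 : (I.card : ℝ) ≤ N / K₀ := by
            rw [le_div_iff₀ hK']
            exact hcard
          have h5 : (0 : ℝ) ≤ 2 * M := by positivity
          calc (I.card : ℝ) * (2 * M) ≤ (N / K₀ : ℝ) * (2 * M) :=
                mul_le_mul_of_nonneg_right h4 h5
            _ = 2 * M * (N / K₀ : ℝ) := by ring

private theorem elt (δ a : ℝ) (q : ℕ) (hδ : 0 < δ) (ha : 0 ≤ a) :
    a ≤ δ / 2 + (2 / δ) ^ q * a ^ (q + 1) := by
  by_cases h : a ≤ δ / 2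
  · have : 0 ≤ (2 / δ) ^ q * a ^ (q + 1) := by positivity
    linarith
  · push Not at h
    have h1 : 1 ≤ 2 / δ * a := by
      rw [div_mul_eq_mul_div, le_div_iff₀ hδ]
      linarith
    have h2 : a ≤ (2 / δ) ^ q * a ^ (q + 1) := by
      have e : (2 / δ) ^ q * a ^ (q + 1) = (2 / δ * a) ^ q * a := by
        rw [mul_pow]; ring
      rw [e]
      have h3 : 1 ≤ (2 / δ * a) ^ q := one_le_pow₀ h1
      nlinarith
    have : 0 < δ / 2 := by positivity
    linarith

private theorem DZ_nonneg (c H K : ℕ) : ∀ (J : ℕ) (Φ : ℤ → ℂ) (m : ℤ), 0 ≤ DZ c H K J Φ m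
  | 0, Φ, m => by unfold DZ; positivity
  | J + 1, Φ, m => by
    unfold DZ
    exact div_nonneg (sum_nonneg fun x _ => sum_nonneg fun y _ => DZ_nonneg c H K J _ _)
      (by positivity)

private theorem sumW (D : ℤ → ℝ) (M : ℕ) (hM : 0 < M) : ∀ L : ℕ,
    ∑ i ∈ range L, ∑ n ∈ Ioc ((i * M : ℕ) : ℤ) (((i * M : ℕ) : ℤ) + M), D n =
      ∑ n ∈ Icc 1 (L * M), D ((n : ℕ) : ℤ) := by
  intro L
  induction L with
  | zero => simp
  | succ L ih =>
    rw [sum_range_succ, ih]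
    have e : Icc 1 ((L + 1) * M) = Icc 1 (L * M) ∪ Ioc (L * M) ((L + 1) * M) := by
      have h1 : (L + 1) * M = L * M + M := by ring
      ext x
      simp only [mem_Icc, mem_union, mem_Ioc]
      omega
    rw [e, sum_union]
    · congr 1
      rw [show (L + 1) * M = L * M + M by ring]
      symm
      refine sum_bij (fun (x : ℕ) _ => (x : ℤ)) ?_ ?_ ?_ ?_
      · intro x hx
        rw [mem_Ioc] at hx ⊢
        omega
      · intro x _ y _ hxy
        exact_mod_cast hxy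
      · intro y hy
        rw [mem_Ioc] at hy
        refine ⟨y.toNat, ?_, ?_⟩
        · rw [mem_Ioc]
          omega
        · omega
      · intro x _
        rfl
    · rw [disjoint_left]
      intro x hx hx'
      rw [mem_Icc] at hx
      rw [mem_Ioc] at hx'
      omega

theorem pf_GF1 (hN : T_GVN) : T_GF1 := by
  intro J δ hJ hδ
  obtain ⟨q, hq⟩ : ∃ q : ℕ, 2 ^ (J + 1) = q + 1 :=
    ⟨2 ^ (J + 1) - 1, by have := Nat.one_le_two_pow (n := J + 1); omega⟩
  refine ⟨(2 / δ) ^ q, by positivity, ?_⟩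
  set B : ℝ := (2 / δ) ^ q with hB
  have hB0 : 0 ≤ B := by positivity
  intro R a c h hh hc hDv
  obtain ⟨A, hA0, hA⟩ := hN J R a c h hJ hh hc hDv
  obtain ⟨M, hM1⟩ := exists_nat_gt (8 * (B * A) / δ)
  have hM0 : (0 : ℝ) < M := lt_of_le_of_lt (by positivity) hM1
  have hM : 0 < M := by exact_mod_cast hM0
  have hBM : B * A / M ≤ δ / 8 := by
    rw [div_lt_iff₀ hδ] at hM1
    rw [div_le_div_iff₀ hM0 (by norm_num)]
    nlinarith
  obtain ⟨K₁, hK1⟩ := exists_nat_gt (8 * M / δ)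
  set K₀ := K₁ + M with hK0
  have hK0M : M ≤ K₀ := by omega
  have hK0p : 0 < K₀ := by omega
  have hK0r : (0 : ℝ) < K₀ := by exact_mod_cast hK0p
  have hK0c : 2 * (M : ℝ) / K₀ ≤ δ / 4 := by
    rw [div_lt_iff₀ hδ] at hK1
    rw [div_le_div_iff₀ hK0r (by norm_num), hK0]
    push_cast
    nlinarith
  refine ⟨K₀, hK0p, ?_⟩
  intro f g N K I hf hg hK hNN hI hd
  have hKp : 0 < K := by omega
  have hKr : (0 : ℝ) < K := by exact_mod_cast hKp
  have hNp : 0 < N := by omega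
  have hNr : (0 : ℝ) < N := by exact_mod_cast hNp
  set X : (Fin R → ℕ) → ℤ → ℂ := fun t n => f (n + lf (a 0) t) *
    ∏ j, g j (n + lf (a (Fin.succ j)) t) with hX
  have hX1 : ∀ t n, ‖X t n‖ ≤ 1 := by
    intro t n
    rw [hX]
    simp only
    rw [norm_mul, norm_prod]
    exact mul_le_one₀ (hf _) (prod_nonneg fun _ _ => norm_nonneg _)
      (prod_le_one (fun _ _ => norm_nonneg _) fun j _ => hg j _)
  set KR : ℝ := (K : ℝ) ^ R with hKR
  have hKR0 : 0 < KR := by positivity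
  have hTk : ((Tk R K).card : ℝ) = KR := by
    rw [Tk, Fintype.card_piFinset]
    simp [hKR]
  -- the windows
  set w : (Fin R → ℕ) → ℕ → ℝ := fun t i =>
    ‖∑ n ∈ Ioc ((i * M : ℕ) : ℤ) (((i * M : ℕ) : ℤ) + M), X t n‖ with hw
  have h1 : ∑ t ∈ Tk R K, ∑ S ∈ I t, ‖∑ n ∈ Ioc (S.1 : ℤ) S.2, X t n‖ ≤
      ∑ i ∈ range (N / M), ∑ t ∈ Tk R K, w t i + KR * (δ / 4 * N) := by
    rw [sum_comm, ← hTk, ← nsmul_eq_mul, ← sum_const, ← sum_add_distrib]
    refine sum_le_sum fun t _ => ?_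
    refine (stB (X t) (hX1 t) M N K₀ hM hK0p (I t) (hI t) (hd t)).trans ?_
    refine add_le_add le_rfl ?_
    calc 2 * (M : ℝ) * (N / K₀) = 2 * (M : ℝ) / K₀ * N := by ring
      _ ≤ δ / 4 * N := mul_le_mul_of_nonneg_right hK0c hNr.le
  set D : (Fin R → ℕ) → ℤ → ℝ := fun t n => DZ c h h J f (n + lf (a 0) t) with hD
  have hD0 : ∀ t n, 0 ≤ D t n := fun t n => DZ_nonneg c h h J f _
  -- one window
  have h2 : ∀ i, ∑ t ∈ Tk R K, w t i ≤ 3 * δ / 4 * (KR * M) +
      B * ∑ t ∈ Tk R K, ∑ n ∈ Ioc ((i * M : ℕ) : ℤ) (((i * M : ℕ) : ℤ) + M), D t n := by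
    intro i
    have hA' := hA f g ((i * M : ℕ) : ℤ) M K hf hg hM hKp
    set ai : ℝ := (∑ t ∈ Tk R K, ‖(∑ n ∈ Ioc ((i * M : ℕ) : ℤ) (((i * M : ℕ) : ℤ) + M),
      f (n + lf (a 0) t) * ∏ j, g j (n + lf (a (Fin.succ j)) t)) / M‖) / (K : ℝ) ^ R with hai
    have hai0 : 0 ≤ ai := div_nonneg (sum_nonneg fun _ _ => norm_nonneg _) (by positivity)
    have hai1 : ∑ t ∈ Tk R K, w t i = ai * (KR * M) := by
      have : ai = (∑ t ∈ Tk R K, w t i / M) / KR := by
        rw [hai]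
        congr 1
        refine sum_congr rfl fun t _ => ?_
        rw [norm_div, Complex.norm_natCast]
      rw [this, ← sum_div]
      field_simp
    have h3 := elt δ ai q hδ hai0
    rw [← hq] at h3
    rw [hai1]
    have h4 : B * ai ^ (2 ^ (J + 1)) ≤ B * ((∑ t ∈ Tk R K, ∑ n ∈ Ioc ((i * M : ℕ) : ℤ)
        (((i * M : ℕ) : ℤ) + M), D t n) / (KR * M)) + δ / 4 := by
      have h5 := mul_le_mul_of_nonneg_left hA' hB0
      rw [mul_add] at h5
      have h6 : B * (A * (1 / M + 1 / K)) ≤ δ / 4 := by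
        have h7 : B * (A * (1 / M + 1 / K)) = B * A / M + B * A / K := by ring
        have h8 : B * A / K ≤ B * A / M := by
          refine div_le_div_of_nonneg_left (by positivity) hM0 ?_
          exact_mod_cast hK0M.trans hK
        linarith
      linarith
    have h9 : ai ≤ 3 * δ / 4 + B * ((∑ t ∈ Tk R K, ∑ n ∈ Ioc ((i * M : ℕ) : ℤ)
        (((i * M : ℕ) : ℤ) + M), D t n) / (KR * M)) := by
      rw [← hB] at h3
      linarith
    calc ai * (KR * M) ≤ (3 * δ / 4 + B * ((∑ t ∈ Tk R K, ∑ n ∈ Ioc ((i * M : ℕ) : ℤ)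
        (((i * M : ℕ) : ℤ) + M), D t n) / (KR * M))) * (KR * M) :=
          mul_le_mul_of_nonneg_right h9 (by positivity)
      _ = _ := by
        field_simp
  have h3 : ∑ i ∈ range (N / M), ∑ t ∈ Tk R K, w t i ≤ 3 * δ / 4 * (KR * N) +
      B * ∑ t ∈ Tk R K, ∑ n ∈ Icc 1 N, D t (n : ℕ) := by
    refine (sum_le_sum fun i _ => h2 i).trans ?_
    rw [sum_add_distrib, sum_const, card_range, nsmul_eq_mul, ← mul_sum, sum_comm]
    refine add_le_add ?_ (mul_le_mul_of_nonneg_left (sum_le_sum fun t _ => ?_) hB0)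
    · have h4 : ((N / M : ℕ) : ℝ) * M ≤ N := by exact_mod_cast Nat.div_mul_le_self N M
      have h5 : 0 ≤ 3 * δ / 4 * KR := by positivity
      calc ((N / M : ℕ) : ℝ) * (3 * δ / 4 * (KR * M)) =
            3 * δ / 4 * KR * (((N / M : ℕ) : ℝ) * M) := by ring
        _ ≤ 3 * δ / 4 * KR * N := mul_le_mul_of_nonneg_left h4 h5
        _ = _ := by ring
    · rw [sumW (D t) M hM]
      refine sum_le_sum_of_subset_of_nonneg ?_ fun n _ _ => hD0 t _
      exact Icc_subset_Icc le_rfl (Nat.div_mul_le_self N M)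
  rw [div_le_iff₀ (by positivity)]
  have h4 : (δ + B * ((∑ t ∈ Tk R K, ∑ n ∈ Icc 1 N, D t (n : ℕ)) / (KR * N))) * (KR * N) =
      δ * (KR * N) + B * ∑ t ∈ Tk R K, ∑ n ∈ Icc 1 N, D t (n : ℕ) := by
    field_simp
  change ∑ t ∈ Tk R K, ∑ S ∈ I t, ‖∑ n ∈ Ioc (S.1 : ℤ) S.2, X t n‖ ≤
    (δ + B * ((∑ t ∈ Tk R K, ∑ n ∈ Icc 1 N, D t (n : ℕ)) / (KR * N))) * (KR * N)
  rw [h4]
  linarith

end Pool.Agent.H44.GNG
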