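import Pool.Agent.H28.GN.T4

/-!
Theorem G, row GF2: the general form (from `T_GF1`, `T_BRG` and the core).
-/

set_option autoImplicit false

open Filter Topology Finset

namespace Pool.Agent.H44.GNG

open Pool.Agent.H28.GN
open Pool.Agent.H28.LF (lt Um)

private theorem DZ_bd (c H K : ℕ) (hH : 0 < H) (hK : 0 < K) : ∀ (J : ℕ) (Φ : ℤ → ℂ),
    (∀ n, ‖Φ n‖ ≤ 1) → ∀ m : ℤ, 0 ≤ DZ c H K J Φ m ∧ DZ c H K J Φ m ≤ 1
  | 0, Φ, hΦ, m => by
    unfold DZ
    refine ⟨by positivity, ?_⟩
    have hK' : (0 : ℝ) < K := by exact_mod_cast hK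
    have h1 : ‖(∑ k ∈ range K, Φ (m + k + 1)) / (K : ℂ)‖ ≤ 1 := by
      rw [norm_div, Complex.norm_natCast, div_le_one hK']
      refine (norm_sum_le _ _).trans ((sum_le_sum fun k _ => hΦ _).trans ?_)
      simp
    exact pow_le_one₀ (norm_nonneg _) h1
  | J + 1, Φ, hΦ, m => by
    unfold DZ
    have hH' : (0 : ℝ) < H := by exact_mod_cast hH
    have hq : ∀ x y : ℕ, 0 ≤ DZ c H K J (fun a => Φ (a + c * x) * cj (Φ (a + c * y))) m ∧
        DZ c H K J (fun a => Φ (a + c * x) * cj (Φ (a + c * y))) m ≤ 1 := by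
      intro x y
      refine DZ_bd c H K hH hK J _ (fun n => ?_) m
      rw [norm_mul, cj, RCLike.norm_conj]
      exact mul_le_one₀ (hΦ _) (norm_nonneg _) (hΦ _)
    refine ⟨div_nonneg (sum_nonneg fun x _ => sum_nonneg fun y _ => (hq x y).1) (by positivity),
      ?_⟩
    rw [div_le_one (by positivity)]
    calc _ ≤ ∑ x ∈ range H, ∑ y ∈ range H, (1 : ℝ) :=
          sum_le_sum fun x _ => sum_le_sum fun y _ => (hq x y).2
      _ = (H : ℝ) ^ 2 := by simp [sq]

private theorem sqs (m : ℕ) (hm : 0 < m) : ∀ y : ℕ, m ≤ y →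
    ∑ N ∈ Icc m y, 1 / (N : ℝ) ^ 2 ≤ 2 / (m : ℝ) - 1 / (y : ℝ) := by
  intro y hy
  have hm' : (1 : ℝ) ≤ m := by exact_mod_cast hm
  induction y, hy using Nat.le_induction with
  | base =>
    rw [Icc_self, sum_singleton]
    have h1 : 1 / (m : ℝ) ^ 2 ≤ 1 / m := by
      refine one_div_le_one_div_of_le (by positivity) ?_
      nlinarith
    have h2 : 2 / (m : ℝ) - 1 / m = 1 / m := by ring
    rw [h2]
    exact h1
  | succ k hk ih =>
    have e : Icc m (k + 1) = insert (k + 1) (Icc m k) := by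
      ext x
      simp only [mem_Icc, mem_insert]
      omega
    rw [e, sum_insert (by simp)]
    have hk0 : (0 : ℝ) < k := by exact_mod_cast lt_of_lt_of_le hm hk
    have h1 : 1 / ((k + 1 : ℕ) : ℝ) ^ 2 ≤ 1 / (k : ℝ) - 1 / ((k + 1 : ℕ) : ℝ) := by
      push_cast
      rw [div_sub_div _ _ hk0.ne' (by positivity), div_le_div_iff₀ (by positivity)
        (by positivity)]
      nlinarith [sq_nonneg (k : ℝ), mul_pos hk0 hk0]
    linarith

private theorem hrm (x : ℕ) (hx : 0 < x) : ∀ y : ℕ, x ≤ y →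
    ∑ N ∈ Icc x y, 1 / (N : ℝ) ≤ 1 + Real.log ((y : ℝ) / x) := by
  intro y hy
  have hx' : (1 : ℝ) ≤ x := by exact_mod_cast hx
  induction y, hy using Nat.le_induction with
  | base =>
    rw [Icc_self, sum_singleton, div_self (by positivity), Real.log_one, add_zero]
    rw [div_le_one (by positivity)]
    exact hx'
  | succ k hk ih =>
    have e : Icc x (k + 1) = insert (k + 1) (Icc x k) := by
      ext z
      simp only [mem_Icc, mem_insert]
      omega
    rw [e, sum_insert (by simp)]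
    have hk0 : (0 : ℝ) < k := by exact_mod_cast lt_of_lt_of_le hx hk
    have h1 : 1 / ((k + 1 : ℕ) : ℝ) ≤ Real.log (((k + 1 : ℕ) : ℝ) / k) := by
      have h2 := Real.one_sub_inv_le_log_of_pos (x := ((k + 1 : ℕ) : ℝ) / k) (by positivity)
      refine le_trans (le_of_eq ?_) h2
      push_cast
      field_simp
      ring
    have h3 : Real.log (((k + 1 : ℕ) : ℝ) / x) =
        Real.log (((k + 1 : ℕ) : ℝ) / k) + Real.log ((k : ℝ) / x) := by
      rw [← Real.log_mul (by positivity) (by positivity)]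
      congr 1
      field_simp
    rw [h3]
    linarith

private theorem sq2 (p y : ℕ) (hp : 0 < p) (T : Finset ℕ) (hT : T ⊆ Icc p y) :
    ∑ N ∈ T, 1 / (N : ℝ) ^ 2 ≤ 2 / (p : ℝ) := by
  have h1 : ∑ N ∈ T, 1 / (N : ℝ) ^ 2 ≤ ∑ N ∈ Icc p y, 1 / (N : ℝ) ^ 2 :=
    sum_le_sum_of_subset_of_nonneg hT fun _ _ _ => by positivity
  refine h1.trans ?_
  by_cases h : p ≤ y
  · have h2 := sqs p hp y h
    have h3 : (0 : ℝ) ≤ 1 / y := by positivity
    linarith
  · rw [Icc_eq_empty (by omega), sum_empty]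
    positivity

private theorem swp (D : ℕ → ℝ) (hD : ∀ n, 0 ≤ D n ∧ D n ≤ 1) (x y C : ℕ) (hx : 0 < x)
    (hC : 0 < C) :
    ∑ N ∈ Icc x y, (∑ n ∈ Icc 1 (C * N), D n) / (N : ℝ) ^ 2 ≤
      2 + 2 * C * ∑ n ∈ Icc x (C * y), D n / n := by
  have e1 : ∑ N ∈ Icc x y, (∑ n ∈ Icc 1 (C * N), D n) / (N : ℝ) ^ 2 =
      ∑ n ∈ Icc 1 (C * y), ∑ N ∈ (Icc x y).filter (fun N => n ≤ C * N),
        D n * (1 / (N : ℝ) ^ 2) := by
    rw [← sum_comm' (s := Icc x y) (t := fun N => Icc 1 (C * N))]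
    · refine sum_congr rfl fun N _ => ?_
      rw [sum_div]
      refine sum_congr rfl fun n _ => ?_
      ring
    · intro N n
      simp only [mem_Icc, mem_filter]
      constructor
      · rintro ⟨⟨a1, a2⟩, a3, a4⟩
        exact ⟨⟨⟨a1, a2⟩, a4⟩, a3, a4.trans (Nat.mul_le_mul_left C a2)⟩
      · rintro ⟨⟨⟨a1, a2⟩, a4⟩, a3, _⟩
        exact ⟨⟨a1, a2⟩, a3, a4⟩
  rw [e1]
  have hxr : (0 : ℝ) < x := by exact_mod_cast hx
  have h1 : ∀ n ∈ Icc 1 (C * y), ∑ N ∈ (Icc x y).filter (fun N => n ≤ C * N),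
      D n * (1 / (N : ℝ) ^ 2) ≤ if n < x then 2 / (x : ℝ) else 2 * C * (D n / n) := by
    intro n hn
    rw [mem_Icc] at hn
    rw [← mul_sum]
    split_ifs with hnx
    · have h2 := sq2 x y hx _ (filter_subset (fun N => n ≤ C * N) (Icc x y))
      have h3 : (0 : ℝ) ≤ 2 / x := by positivity
      calc D n * ∑ N ∈ (Icc x y).filter (fun N => n ≤ C * N), 1 / (N : ℝ) ^ 2 ≤
            D n * (2 / x) := mul_le_mul_of_nonneg_left h2 (hD n).1
        _ ≤ 1 * (2 / x) := mul_le_mul_of_nonneg_right (hD n).2 h3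
        _ = 2 / x := one_mul _
    · set p : ℕ := (n + C - 1) / C with hp
      have hp1 : n ≤ C * p := by
        have h2 := Nat.lt_div_mul_add (a := n + C - 1) hC
        rw [← hp] at h2
        have h3 : p * C = C * p := Nat.mul_comm _ _
        omega
      have hp0 : 0 < p := by
        rcases Nat.eq_zero_or_pos p with h0 | h0
        · rw [h0] at hp1
          omega
        · exact h0
      have h2 := sq2 p y hp0 ((Icc x y).filter (fun N => n ≤ C * N)) (by
        intro N hN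
        rw [mem_filter, mem_Icc] at hN
        rw [mem_Icc]
        refine ⟨?_, hN.1.2⟩
        have h3 : (n + C - 1) / C < N + 1 := by
          rw [Nat.div_lt_iff_lt_mul hC]
          have h4 : (N + 1) * C = C * N + C := by ring
          omega
        omega)
      have hn0 : (0 : ℝ) < n := by exact_mod_cast (by omega : 0 < n)
      have hpr : (0 : ℝ) < p := by exact_mod_cast hp0
      have h3 : 2 / (p : ℝ) ≤ 2 * C / n := by
        rw [div_le_div_iff₀ hpr hn0]
        have h4 : (n : ℝ) ≤ C * p := by exact_mod_cast hp1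
        linarith
      calc D n * ∑ N ∈ (Icc x y).filter (fun N => n ≤ C * N), 1 / (N : ℝ) ^ 2 ≤
            D n * (2 * C / n) := mul_le_mul_of_nonneg_left (h2.trans h3) (hD n).1
        _ = 2 * C * (D n / n) := by ring
  refine (sum_le_sum h1).trans ?_
  rw [sum_ite]
  refine add_le_add ?_ ?_
  · calc ∑ n ∈ (Icc 1 (C * y)).filter (fun n => n < x), 2 / (x : ℝ) =
          (((Icc 1 (C * y)).filter (fun n => n < x)).card : ℝ) * (2 / x) := by
            rw [sum_const, nsmul_eq_mul]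
      _ ≤ (x : ℝ) * (2 / x) := by
            refine mul_le_mul_of_nonneg_right ?_ (by positivity)
            have : ((Icc 1 (C * y)).filter (fun n => n < x)).card ≤ (range x).card := by
              refine card_le_card fun n hn => ?_
              rw [mem_filter] at hn
              rw [mem_range]
              exact hn.2
            rw [card_range] at this
            exact_mod_cast this
      _ = 2 := by
            have : (x : ℝ) ≠ 0 := by positivity
            field_simp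
  · rw [mul_sum]
    have e3 : (Icc 1 (C * y)).filter (fun n => ¬ n < x) = Icc x (C * y) := by
      ext n
      simp only [mem_filter, mem_Icc]
      omega
    rw [e3]

private theorem DZs (c H K : ℕ) (s : ℤ) : ∀ (J : ℕ) (f : ℤ → ℂ) (m : ℤ),
    DZ c H K J (fun n => f (n + s)) m = DZ c H K J f (m + s)
  | 0, f, m => by
    unfold DZ
    congr 3
    refine sum_congr rfl fun k _ => ?_
    ring_nf
  | J + 1, f, m => by
    unfold DZ
    congr 1
    refine sum_congr rfl fun x _ => sum_congr rfl fun y _ => ?_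
    rw [← DZs c H K s J (fun a => f (a + c * x) * cj (f (a + c * y))) m]
    congr 1
    funext a
    congr 2
    · ring_nf
    · ring_nf

private theorem lfa {R : ℕ} (a v t : Fin R → ℕ) :
    lf a (fun r => v r + t r) = lf a t + lf a v := by
  unfold lf
  rw [← sum_add_distrib]
  refine sum_congr rfl fun r _ => ?_
  ring

private theorem smT {R : ℕ} (v : Fin R → ℕ) (K : ℕ) (Φ : (Fin R → ℕ) → ℝ) :
    ∑ t ∈ Tb v K, Φ t = ∑ t ∈ Tk R K, Φ (fun r => v r + t r) := by
  symm
  refine sum_nbij' (fun t r => v r + t r) (fun t r => t r - v r) ?_ ?_ ?_ ?_ ?_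
  · intro t ht
    rw [Tk, Fintype.mem_piFinset] at ht
    rw [Tb, Fintype.mem_piFinset]
    intro r
    have := ht r
    rw [mem_Icc] at this
    rw [mem_Ioc]
    omega
  · intro t ht
    rw [Tb, Fintype.mem_piFinset] at ht
    rw [Tk, Fintype.mem_piFinset]
    intro r
    have := ht r
    rw [mem_Ioc] at this
    rw [mem_Icc]
    omega
  · intro t _
    funext r
    simp
  · intro t ht
    rw [Tb, Fintype.mem_piFinset] at ht
    funext r
    have := ht r
    rw [mem_Ioc] at this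
    change v r + (t r - v r) = t r
    omega
  · intro t _
    rfl

private theorem DG0 (u : Bool × Bool → ℂ) (c J H K : ℕ) (w : ℕ → Bool × Bool) :
    0 ≤ DG u c J H K w := by
  unfold DG
  exact div_nonneg (sum_nonneg fun _ _ => by positivity) (by positivity)

theorem pf_GF2 (h1 : T_GF1) (hB : T_BRG) : T_GF2 := by
  intro u hu hcore J R a hJ ha ε hε
  choose r hr using fun j => Function.ne_iff.1 (ha j)
  set c : ℕ := ∏ j : Fin J, ((a j.succ (r j) : ℤ) - a 0 (r j)).natAbs with hc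
  have hc0 : 0 < c := by
    refine Finset.prod_pos fun j _ => ?_
    rw [Int.natAbs_pos]
    have := hr j
    omega
  have hDv : Dv c a := by
    intro j
    refine ⟨r j, hr j, ?_⟩
    rw [← Int.natAbs_dvd, Int.natCast_dvd_natCast, hc]
    exact Finset.dvd_prod_of_mem
      (fun j : Fin J => ((a j.succ (r j) : ℤ) - a 0 (r j)).natAbs) (mem_univ j)
  set Ca : ℕ := ∑ i, a 0 i with hCa
  set C₂ : ℕ := 1 + 2 * Ca with hC₂
  obtain ⟨B, hB0, hB1⟩ := h1 J (ε / 4) hJ (by positivity)
  set ε₁ : ℝ := ε / (16 * (B + 1) * C₂) with hε₁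
  have hC₂0 : 0 < C₂ := by omega
  have hC₂r : (0 : ℝ) < C₂ := by exact_mod_cast hC₂0
  have hε₁0 : 0 < ε₁ := by positivity
  obtain ⟨h, C₁, hh, hcor⟩ := hcore c J hc0 hJ ε₁ hε₁0
  obtain ⟨K₁, hK₁, hK₁'⟩ := hB1 R a c h hh hc0 hDv
  set K₀ : ℕ := K₁ + C₁ + C₂ + 3 + ⌈Real.exp (8 * B / ε)⌉₊ with hK₀
  refine ⟨K₀, by omega, ?_⟩
  intro x y K v g I hxK hxy hK hv hg hI hd
  have hK0p : 0 < K₀ := by omega
  have hxp : 0 < x := by omega
  have hK1x : x ≤ K₀ * x := Nat.le_mul_of_pos_left x hK0p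
  have hxley : x ≤ y := hK1x.trans hxy
  have hyp : 0 < y := by omega
  have hxr : (0 : ℝ) < x := by exact_mod_cast hxp
  have hyr : (0 : ℝ) < y := by exact_mod_cast hyp
  set L : ℝ := Real.log ((y : ℝ) / x) with hL
  have hratio : (K₀ : ℝ) ≤ (y : ℝ) / x := by
    rw [le_div_iff₀ hxr]
    exact_mod_cast hxy
  have hexp : Real.exp (8 * B / ε) ≤ K₀ := by
    have h2 := Nat.le_ceil (Real.exp (8 * B / ε))
    refine h2.trans ?_
    exact_mod_cast (by omega : ⌈Real.exp (8 * B / ε)⌉₊ ≤ K₀)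
  have hL8 : 8 * B / ε ≤ L := by
    rw [hL, Real.le_log_iff_exp_le (by positivity)]
    exact hexp.trans hratio
  have hL1 : 1 ≤ L := by
    rw [hL, Real.le_log_iff_exp_le (by positivity)]
    have h2 := Real.exp_one_lt_d9
    have h3 : (3 : ℝ) ≤ K₀ := by exact_mod_cast (by omega : 3 ≤ K₀)
    linarith
  have hLC : Real.log ((C₂ * y : ℕ) / x : ℝ) ≤ 2 * L := by
    have h2 : ((C₂ * y : ℕ) / x : ℝ) = (C₂ : ℝ) * ((y : ℝ) / x) := by
      rw [Nat.cast_mul, mul_div_assoc]
    rw [h2, Real.log_mul (by positivity) (by positivity)]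
    have h3 : Real.log (C₂ : ℝ) ≤ L := by
      rw [hL]
      refine Real.log_le_log (by positivity) ?_
      refine le_trans ?_ hratio
      exact_mod_cast (by omega : C₂ ≤ K₀)
    linarith
  have hC1 : C₁ * x ≤ C₂ * y := by
    calc C₁ * x ≤ K₀ * x := Nat.mul_le_mul_right x (by omega)
      _ ≤ y := hxy
      _ ≤ C₂ * y := Nat.le_mul_of_pos_left y (by omega)
  have hcor' := hcor x (C₂ * y) hxp hC1
  -- the function
  have hfz : ∀ n, ‖fz u n‖ ≤ 1 := by
    intro n
    rw [fz, norm_prod]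
    exact prod_le_one (fun _ _ => norm_nonneg _) fun i _ => (hu.1 _).le
  set G : ℕ → ℝ := fun m => DG u c J h h (wN m) with hG
  have hGb : ∀ m, 0 ≤ G m ∧ G m ≤ 1 := by
    intro m
    rw [hG]
    simp only
    rw [← hB u c J h h m hu.1 hh hh]
    exact DZ_bd c h h hh hh J _ hfz _
  -- the inner sums
  have hin : ∀ N ∈ Icc x y, (∑ t ∈ Tb (v N) (K N), ∑ S ∈ I N t, ‖∑ n ∈ Ioc (S.1 : ℤ) S.2,
      fz u (n + lf (a 0) t) * ∏ j, g N j (n + lf (a (Fin.succ j)) t)‖) /
        ((K N : ℝ) ^ R * (N : ℝ) ^ 2) ≤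
      ε / 4 * (1 / N) + B * ((∑ m ∈ Icc 1 (C₂ * N), G m) / (N : ℝ) ^ 2) := by
    intro N hN
    rw [mem_Icc] at hN
    have hNK : K₀ ≤ N := by omega
    obtain ⟨hKN, hKN'⟩ := hK N hNK
    have hNp : 0 < N := by omega
    have hKp : 0 < K N := by omega
    have hNr : (0 : ℝ) < N := by exact_mod_cast hNp
    have hKr : (0 : ℝ) < K N := by exact_mod_cast hKp
    have h2 := hK₁' (fun n => fz u (n + lf (a 0) (v N)))
      (fun j n => g N j (n + lf (a j.succ) (v N))) N (K N)
      (fun t => I N (fun r => v N r + t r)) (fun n => hfz _) (fun j n => hg N j _) (by omega)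
      (by omega) (fun t S hS => by have := hI N _ S hS; omega) (fun t => hd N _)
    have e0 : ∑ t ∈ Tb (v N) (K N), ∑ S ∈ I N t, ‖∑ n ∈ Ioc (S.1 : ℤ) S.2,
        fz u (n + lf (a 0) t) * ∏ j, g N j (n + lf (a (Fin.succ j)) t)‖ =
        ∑ t ∈ Tk R (K N), ∑ S ∈ I N (fun r => v N r + t r), ‖∑ n ∈ Ioc (S.1 : ℤ) S.2,
        fz u (n + lf (a 0) t + lf (a 0) (v N)) *
          ∏ j, g N j (n + lf (a (Fin.succ j)) t + lf (a (Fin.succ j)) (v N))‖ := by
      rw [smT]
      refine sum_congr rfl fun t _ => sum_congr rfl fun S _ => ?_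
      congr 1
      refine sum_congr rfl fun n _ => ?_
      rw [lfa]
      congr 1
      · congr 1
        push_cast
        ring
      · refine prod_congr rfl fun j _ => ?_
        rw [lfa]
        congr 1
        push_cast
        ring
    rw [e0]
    have hKR0 : (0 : ℝ) < (K N : ℝ) ^ R := by positivity
    have hTk : ((Tk R (K N)).card : ℝ) = (K N : ℝ) ^ R := by
      rw [Tk, Fintype.card_piFinset]
      simp
    -- the averages
    have h3 : ∑ t ∈ Tk R (K N), ∑ n ∈ Icc 1 N, DZ c h h J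
        (fun n => fz u (n + lf (a 0) (v N))) ((n : ℤ) + lf (a 0) t) ≤
        (K N : ℝ) ^ R * ∑ m ∈ Icc 1 (C₂ * N), G m := by
      rw [← hTk, ← nsmul_eq_mul, ← sum_const]
      refine sum_le_sum fun t ht => ?_
      set s : ℕ := lf (a 0) t + lf (a 0) (v N) with hs
      have hsC : s ≤ 2 * Ca * N := by
        have b1 : lf (a 0) t ≤ Ca * N := by
          rw [lf, hCa, sum_mul]
          refine sum_le_sum fun i _ => ?_
          rw [Tk, Fintype.mem_piFinset] at ht
          have := ht i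
          rw [mem_Icc] at this
          exact Nat.mul_le_mul_left _ (this.2.trans hKN')
        have b2 : lf (a 0) (v N) ≤ Ca * N := by
          rw [lf, hCa, sum_mul]
          exact sum_le_sum fun i _ => Nat.mul_le_mul_left _ (hv N i)
        have b3 : 2 * Ca * N = Ca * N + Ca * N := by ring
        omega
      have h4 : ∀ n ∈ Icc 1 N, DZ c h h J (fun n => fz u (n + lf (a 0) (v N)))
          ((n : ℤ) + lf (a 0) t) = G (n + s) := by
        intro n _
        rw [DZs c h h ((lf (a 0) (v N) : ℕ) : ℤ) J (fz u), hG]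
        simp only
        rw [← hB u c J h h (n + s) hu.1 hh hh]
        congr 1
        rw [hs]
        push_cast
        ring
      rw [sum_congr rfl h4]
      have h5 : ∑ n ∈ Icc 1 N, G (n + s) = ∑ m ∈ Icc (1 + s) (N + s), G m := by
        rw [← Finset.map_add_right_Icc, sum_map]
        rfl
      rw [h5]
      refine sum_le_sum_of_subset_of_nonneg ?_ fun m _ _ => (hGb m).1
      refine Icc_subset_Icc (by omega) ?_
      have b4 : C₂ * N = N + 2 * Ca * N := by
        rw [hC₂]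
        ring
      omega
    have h4 : (∑ t ∈ Tk R (K N), ∑ n ∈ Icc 1 N, DZ c h h J
        (fun n => fz u (n + lf (a 0) (v N))) ((n : ℤ) + lf (a 0) t)) / ((K N : ℝ) ^ R * N) ≤
        (∑ m ∈ Icc 1 (C₂ * N), G m) / N := by
      rw [div_le_div_iff₀ (by positivity) hNr]
      calc _ ≤ ((K N : ℝ) ^ R * ∑ m ∈ Icc 1 (C₂ * N), G m) * N :=
            mul_le_mul_of_nonneg_right h3 hNr.le
        _ = _ := by ring
    have h5 := h2.trans (add_le_add le_rfl (mul_le_mul_of_nonneg_left h4 hB0))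
    have h6 := div_le_div_of_nonneg_right h5 hNr.le
    rw [div_div] at h6
    have e1 : (K N : ℝ) ^ R * (N : ℝ) ^ 2 = (K N : ℝ) ^ R * N * N := by ring
    rw [e1]
    refine h6.trans (le_of_eq ?_)
    field_simp
  refine (sum_le_sum hin).trans ?_
  rw [sum_add_distrib, ← mul_sum, ← mul_sum]
  have h2 : ∑ N ∈ Icc x y, 1 / (N : ℝ) ≤ 2 * L := by
    have := hrm x hxp y hxley
    linarith
  have h3 := swp G hGb x y C₂ hxp hC₂0
  have h4 : ∑ n ∈ Icc x (C₂ * y), G n / n ≤ ε₁ * (2 * L) :=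
    hcor'.trans (mul_le_mul_of_nonneg_left hLC hε₁0.le)
  have h5 : B * ∑ N ∈ Icc x y, (∑ m ∈ Icc 1 (C₂ * N), G m) / (N : ℝ) ^ 2 ≤
      B * (2 + 2 * C₂ * (ε₁ * (2 * L))) := by
    refine mul_le_mul_of_nonneg_left (h3.trans ?_) hB0
    have h6 := mul_le_mul_of_nonneg_left h4 (by positivity : (0 : ℝ) ≤ 2 * C₂)
    linarith
  have h6 : ε / 4 * ∑ N ∈ Icc x y, 1 / (N : ℝ) ≤ ε / 4 * (2 * L) :=
    mul_le_mul_of_nonneg_left h2 (by positivity)
  have h7 : B * (2 * C₂ * (ε₁ * (2 * L))) ≤ ε / 4 * L := by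
    have e2 : B * (2 * C₂ * (ε₁ * (2 * L))) = B / (B + 1) * (ε / 4 * L) := by
      rw [hε₁]
      field_simp
      ring
    rw [e2]
    have h8 : B / (B + 1) ≤ 1 := by
      rw [div_le_one (by positivity)]
      linarith
    have h9 : 0 ≤ ε / 4 * L := by positivity
    nlinarith
  have h8 : 2 * B ≤ ε / 4 * L := by
    rw [div_le_iff₀ hε] at hL8
    linarith
  nlinarith

end Pool.Agent.H44.GNG
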